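import Pool.Agent.W656.VA8
import Pool.Agent.W656.VB6

set_option autoImplicit false

noncomputable section

namespace Pool.Agent.Results.MP_54e5d7_al.BaseChange

/-- The orders of the finite subgroups of `G` are bounded, and `d` is their least common
multiple. -/
def IsLcm (G : Type) [Group G] (d : ℕ) : Prop :=
  (∃ N : ℕ, ∀ H : Subgroup G, Finite H → Nat.card H ≤ N) ∧
    (∀ H : Subgroup G, Finite H → Nat.card H ∣ d) ∧
    ∀ e : ℕ, (∀ H : Subgroup G, Finite H → Nat.card H ∣ e) → d ∣ e

/-- The kernel of right multiplication by the matrix `A` on `ℓ²(G)^m`. -/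
def kernel {G : Type} [Group G] {m n : ℕ} (A : Matrix (Fin m) (Fin n) (G →₀ ℂ)) :
    Set (lp (fun _ : Fin m × G => ℂ) 2) :=
  {x | ∀ (j : Fin n) (g : G),
    ∑ i : Fin m, (A i j).sum (fun h c => x (i, g * h⁻¹) * c) = 0}

open Classical in
/-- The von Neumann dimension of this kernel: the sum over `i` of one minus the squared distance
from the basis vector at `(i, 1)` to the kernel, that is, the trace of the projection onto the
kernel. -/
def kerDim {G : Type} [Group G] {m n : ℕ} (A : Matrix (Fin m) (Fin n) (G →₀ ℂ)) : ℝ :=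
  ∑ i : Fin m, (1 - (Metric.infDist
    (lp.single 2 (i, (1 : G)) (1 : ℂ) : lp (fun _ : Fin m × G => ℂ) 2) (kernel A)) ^ 2)

/-- **Base change and gap for the Atiyah conjecture.** Let `C` be a class of groups which is
closed under direct products and under free products with free groups of finite rank, and let `R`
be any subring of `ℂ`, for example `ℤ`. The following are equivalent.

1. The Atiyah conjecture over `ℂ` holds for all groups of `C` with bounded torsion: for `G` in `C`
   with bounded orders of finite subgroups, `d` the least common multiple of these orders, and `A`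
   any matrix over `ℂ[G]`, the number `d · dim ker A` is an integer.
2. The same for the matrices `A` over `R[G]`.
3. There is a gap above `0` over `R`: for some `ε > 0` no number `d · dim ker A`, with `G` in `C`
   of bounded torsion and `A` a matrix over `R[G]`, lies in `(0, ε)`.
4. The numbers `d · dim ker A` of the matrices over `R[G]`, `G` in `C` of bounded torsion, avoid
   some interval `(a, b)` with `0 ≤ a < b`. -/
theorem result (C : (G : Type) → [Group G] → Prop)
    (hprod : ∀ (G H : Type) [Group G] [Group H], C G → C H → C (G × H))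
    (hfree : ∀ (G : Type) [Group G] (m : ℕ), C G → C (Monoid.Coprod G (FreeGroup (Fin m))))
    (R : Subring ℂ) :
    List.TFAE [
      ∀ (G : Type) [Group G], C G → ∀ d : ℕ, IsLcm G d →
        ∀ (m n : ℕ) (A : Matrix (Fin m) (Fin n) (G →₀ ℂ)),
          ∃ z : ℤ, (d : ℝ) * kerDim A = z,
      ∀ (G : Type) [Group G], C G → ∀ d : ℕ, IsLcm G d →
        ∀ (m n : ℕ) (A : Matrix (Fin m) (Fin n) (G →₀ ℂ)), (∀ i j g, A i j g ∈ R) →
          ∃ z : ℤ, (d : ℝ) * kerDim A = z,
      ∃ ε : ℝ, 0 < ε ∧ ∀ (G : Type) [Group G], C G → ∀ d : ℕ, IsLcm G d →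
        ∀ (m n : ℕ) (A : Matrix (Fin m) (Fin n) (G →₀ ℂ)), (∀ i j g, A i j g ∈ R) →
          ¬ (0 < (d : ℝ) * kerDim A ∧ (d : ℝ) * kerDim A < ε),
      ∃ a b : ℝ, 0 ≤ a ∧ a < b ∧ ∀ (G : Type) [Group G], C G → ∀ d : ℕ, IsLcm G d →
        ∀ (m n : ℕ) (A : Matrix (Fin m) (Fin n) (G →₀ ℂ)), (∀ i j g, A i j g ∈ R) →
          ¬ (a < (d : ℝ) * kerDim A ∧ (d : ℝ) * kerDim A < b)] := by
  tfae_have 1 → 2 := fun h G _ hG d hd m n A _ => h G hG d hd m n A
  tfae_have 2 → 3 := by
    intro h
    refine ⟨1, one_pos, ?_⟩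
    rintro G _ hG d hd m n A hA ⟨h1, h2⟩
    obtain ⟨z, hz⟩ := h G hG d hd m n A hA
    rw [hz] at h1 h2
    have h3 : 0 < z := by exact_mod_cast h1
    have h4 : z < 1 := by exact_mod_cast h2
    omega
  tfae_have 3 → 4 := by
    rintro ⟨ε, hε, h⟩
    exact ⟨0, ε, le_rfl, hε, h⟩
  tfae_have 4 → 1 := by
    rintro ⟨a, b, ha, hab, h⟩ G _ hG d hd m n A
    have hR : ∀ (G : Type) [Group G], C G → ∀ d : ℕ, W656.VA.IsLcm G d → ∀ v : ℝ,
        W656.VA.Val R G v → ∃ z : ℤ, (d : ℝ) * v = z := by
      intro G _ hG d hd v hv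
      refine W656.VA.gap_val C hprod hfree R a b ha hab ?_ G hG d hd v hv
      intro H _ hH e he v hv
      obtain ⟨m', n', A', hA', rfl⟩ := W656.VA.exists_kerDim hv
      exact h H hH e he m' n' A' hA'
    exact W656.VA.base_change C hprod hfree R hR ⊤ G hG d hd _
      (W656.VA.val_kerDim A (fun _ _ _ => Subring.mem_top _))
  tfae_finish

end Pool.Agent.Results.MP_54e5d7_al.BaseChange
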