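import Pool.Agent.W649.ZL.Mat

set_option autoImplicit false

universe u

namespace Pool.Agent.Results.MP_54e5d7_al.CountablyManyValues

/-- The kernel of right multiplication by the matrix `A` over the complex group ring on row vectors
of length `m` over `l2(G)`: all square-summable `x` with `x A = 0`. -/
def kernel {G : Type u} [Group G] {m l : ℕ} (A : Matrix (Fin m) (Fin l) (G →₀ ℂ)) :
    Set (lp (fun _ : Fin m × G => ℂ) 2) :=
  {x | ∀ (j : Fin l) (g : G),
    ∑ k : Fin m, ∑ h ∈ (A k j).support, x (k, g * h⁻¹) * A k j h = 0}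

open Classical in
/-- The von Neumann dimension of that kernel: the sum over `i` of one minus the square of the
distance from the basis vector at `(i, 1)` to the kernel, that is, the sum of the squared lengths
of the projections of these vectors to the kernel. -/
noncomputable def kerDim {G : Type u} [Group G] {m l : ℕ}
    (A : Matrix (Fin m) (Fin l) (G →₀ ℂ)) : ℝ :=
  ∑ i : Fin m, (1 - Metric.infDist
    (lp.single (E := fun _ : Fin m × G => ℂ) 2 (i, (1 : G)) (1 : ℂ)) (kernel A) ^ 2)

/-- For every countable group `G`, the von Neumann dimensions of the kernels of all finite matrices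
over the complex group ring of `G` form a countable set of real numbers. -/
theorem result {G : Type u} [Group G] [Countable G] :
    {r : ℝ | ∃ (m l : ℕ) (A : Matrix (Fin m) (Fin l) (G →₀ ℂ)), kerDim A = r}.Countable := by
  classical
  have hsub : {r : ℝ | ∃ (m l : ℕ) (A : Matrix (Fin m) (Fin l) (G →₀ ℂ)), kerDim A = r}
      ⊆ ⋃ m : ℕ, ⋃ l : ℕ, ⋃ T : Finset G, Set.range (W649.ZL.kd
        (W649.ZL.famR (fun i : T × Fin m × Fin l => (i.1 : G))
          (fun i => i.2.1) (fun i => i.2.2))) := by
    rintro r ⟨m, l, A, rfl⟩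
    rw [Set.mem_iUnion]
    refine ⟨m, ?_⟩
    rw [Set.mem_iUnion]
    refine ⟨l, ?_⟩
    rw [Set.mem_iUnion]
    let T : Finset G := Finset.univ.biUnion (fun i => Finset.univ.biUnion (fun j => (A i j).support))
    refine ⟨T, W649.ZL.coefT T A, ?_⟩
    have hT : ∀ i j, (A i j).support ⊆ T := by
      intro i j x hx
      rw [Finset.mem_biUnion]
      refine ⟨i, Finset.mem_univ i, ?_⟩
      rw [Finset.mem_biUnion]
      exact ⟨j, Finset.mem_univ j, hx⟩
    rw [← W649.ZL.kerDimM_eq, W649.ZL.matM_coefT T A hT]
    unfold kerDim W649.ZL.kerDimM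
    congr!
  refine Set.Countable.mono hsub ?_
  refine Set.countable_iUnion fun m => Set.countable_iUnion fun l => Set.countable_iUnion fun T => ?_
  exact W649.ZL.kd_countable _ (W649.ZL.famR_eqv _ _ _)

end Pool.Agent.Results.MP_54e5d7_al.CountablyManyValues
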