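import Pool.Agent.W649.ZL.Generic

set_option autoImplicit false

universe u

namespace Pool.Agent.Results.MP_54e5d7_al.GenericMatrices

/-- The kernel of right multiplication by the matrix `A` over the complex group ring on row vectors
of length `m` over `l2(G)`: all square-summable `x` with `x A = 0`. -/
def kernel {G : Type u} [Group G] {m l : ℕ} (A : Matrix (Fin m) (Fin l) (G →₀ ℂ)) :
    Set (lp (fun _ : Fin m × G => ℂ) 2) :=
  {x | ∀ (j : Fin l) (g : G),
    ∑ k : Fin m, ∑ h ∈ (A k j).support, x (k, g * h⁻¹) * A k j h = 0}

open Classical in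
/-- The von Neumann dimension of that kernel: the sum over `i` of one minus the square of the
distance from the basis vector at `(i, 1)` to the kernel, that is, the sum of the squared lengths
of the projections of these vectors to the kernel. -/
noncomputable def kerDim {G : Type u} [Group G] {m l : ℕ}
    (A : Matrix (Fin m) (Fin l) (G →₀ ℂ)) : ℝ :=
  ∑ i : Fin m, (1 - Metric.infDist
    (lp.single (E := fun _ : Fin m × G => ℂ) 2 (i, (1 : G)) (1 : ℂ)) (kernel A) ^ 2)

/-- The index set of the coefficients of the `m × l` matrices whose entry at `(i, j)` is supported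
in `T i j`. -/
abbrev Index {G : Type u} {m l : ℕ} (T : Fin m → Fin l → Finset G) : Type u :=
  (i : Fin m) × (j : Fin l) × T i j

/-- The matrix whose entry at `(i, j)` is the sum of `a (i, j, t) t` over `t` in `T i j`. -/
noncomputable def mat {G : Type u} {m l : ℕ} (T : Fin m → Fin l → Finset G)
    (a : Index T → ℂ) : Matrix (Fin m) (Fin l) (G →₀ ℂ) :=
  fun i j => ∑ t : T i j, Finsupp.single (t : G) (a ⟨i, j, t⟩)

open Classical in
/-- The largest value of `|S| - |N(S)|`, where `S` is a set of rows and `N(S)` is the set of the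
columns `j` for which some `T i j` with `i` in `S` is nonempty. -/
noncomputable def deficiency {G : Type u} {m l : ℕ} (T : Fin m → Fin l → Finset G) : ℕ :=
  Finset.univ.sup (fun S : Finset (Fin m) =>
    S.card - (Finset.univ.filter (fun j : Fin l => ∃ i ∈ S, (T i j).Nonempty)).card)

/-- Let `G` be any group and let finite subsets `T i j` of `G` be given, for `i < m`, `j < l`. For
every `m × l` matrix over the complex group ring whose entry at `(i, j)` is supported in `T i j`,
the kernel of right multiplication on `l2(G)^m` has von Neumann dimension at least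
`deficiency T`, and its dimension is equal to this integer outside a countable union of
hypersurfaces in the space of the coefficients. -/
theorem result {G : Type u} [Group G] {m l : ℕ} (T : Fin m → Fin l → Finset G) :
    (∀ a : Index T → ℂ, (deficiency T : ℝ) ≤ kerDim (mat T a)) ∧
    ∃ P : ℕ → MvPolynomial (Index T) ℂ, (∀ n, P n ≠ 0) ∧
      ∀ a : Index T → ℂ, (∀ n, MvPolynomial.eval a (P n) ≠ 0) →
        kerDim (mat T a) = deficiency T := by
  classical
  let h : Index T → G := fun i => i.2.2.1
  let k : Index T → Fin m := fun i => i.1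
  let j : Index T → Fin l := fun i => i.2.1
  have hN : ∀ S : Finset (Fin m),
      (Finset.univ.filter (fun y : Fin l => ∃ i, k i ∈ S ∧ j i = y))
        = Finset.univ.filter (fun j : Fin l => ∃ i ∈ S, (T i j).Nonempty) := by
    intro S
    ext y
    simp only [Finset.mem_filter, Finset.mem_univ, true_and]
    constructor
    · rintro ⟨⟨i, y', t⟩, hi, rfl⟩
      exact ⟨i, hi, ⟨t.1, t.2⟩⟩
    · rintro ⟨i, hi, t, ht⟩
      exact ⟨⟨i, y, ⟨t, ht⟩⟩, hi, rfl⟩
  have hmat : ∀ a : Index T → ℂ, W649.ZL.matM h k j a = mat T a := by
    intro a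
    funext i' j'
    unfold W649.ZL.matM mat
    rw [Fintype.sum_sigma]
    rw [Finset.sum_eq_single i']
    · rw [Fintype.sum_sigma, Finset.sum_eq_single j']
      · refine Finset.sum_congr rfl fun t _ => ?_
        rw [if_pos ⟨rfl, rfl⟩]
      · intro y _ hy
        apply Finset.sum_eq_zero
        intro t _
        rw [if_neg]
        rintro ⟨_, h2⟩
        exact hy h2
      · intro hh; exact absurd (Finset.mem_univ _) hh
    · intro x _ hx
      apply Finset.sum_eq_zero
      intro t _
      rw [if_neg]
      rintro ⟨h1, _⟩
      exact hx h1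
    · intro hh; exact absurd (Finset.mem_univ _) hh
  have hkd : ∀ a, kerDim (mat T a) = W649.ZL.kd (W649.ZL.famR h k j) a := by
    intro a
    rw [← W649.ZL.kerDimM_eq, hmat]
    unfold kerDim W649.ZL.kerDimM
    congr!
  have hd : ∀ S : Finset (Fin m), S.card ≤
      (Finset.univ.filter (fun y : Fin l => ∃ i, k i ∈ S ∧ j i = y)).card + deficiency T := by
    intro S
    rw [hN]
    have h1 : S.card - (Finset.univ.filter (fun j : Fin l => ∃ i ∈ S, (T i j).Nonempty)).card
        ≤ deficiency T := Finset.le_sup (f := fun S : Finset (Fin m) =>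
          S.card - (Finset.univ.filter (fun j : Fin l => ∃ i ∈ S, (T i j).Nonempty)).card)
          (Finset.mem_univ S)
    omega
  have hd' : ∃ S : Finset (Fin m), S.card =
      (Finset.univ.filter (fun y : Fin l => ∃ i, k i ∈ S ∧ j i = y)).card + deficiency T := by
    obtain ⟨S, _, hS⟩ := Finset.exists_mem_eq_sup (Finset.univ : Finset (Finset (Fin m)))
      ⟨∅, Finset.mem_univ _⟩ (fun S : Finset (Fin m) =>
        S.card - (Finset.univ.filter (fun j : Fin l => ∃ i ∈ S, (T i j).Nonempty)).card)
    have hS' : deficiency T = S.card -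
        (Finset.univ.filter (fun j : Fin l => ∃ i ∈ S, (T i j).Nonempty)).card := hS
    by_cases h0 : deficiency T = 0
    · refine ⟨∅, ?_⟩
      rw [h0]
      simp
    · refine ⟨S, ?_⟩
      rw [hN]
      omega
  obtain ⟨h1, P, hP0, hP⟩ := W649.ZL.generic_value h k j (deficiency T) hd hd'
  refine ⟨fun a => by rw [hkd]; exact h1 a, P, hP0, fun a ha => by rw [hkd]; exact hP a ha⟩

end Pool.Agent.Results.MP_54e5d7_al.GenericMatrices
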